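import Pool.Agent.H513.SepHadwigerProof

set_option autoImplicit false

open Set

namespace Pool.Agent.H513.SepHadwiger

/-- The pairing matrix bound in dimensions four to seven. -/
lemma card_le_six_seven {ι : Type*} [Fintype ι] {d : ℕ} (hd4 : 4 ≤ d) (hd7 : d ≤ 7) (y : ι → E d)
    (f : ι → (E d →L[ℝ] ℝ))
    (h1 : ∀ i, f i (y i) = 1) (h2 : ∀ i j, i ≠ j → -1 ≤ f i (y j) ∧ f i (y j) ≤ 0) :
    (8 - d) * Fintype.card ι ≤ 32 := by
  obtain ⟨s, _, hb⟩ := two_ineq y f h1 h2
  rcases Nat.eq_zero_or_pos (Fintype.card ι) with h0 | hpos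
  · rw [h0]; omega
  have hn0 : (0 : ℝ) < Fintype.card ι := by exact_mod_cast hpos
  suffices h : ((8 : ℝ) - d) * Fintype.card ι ≤ 32 by
    have h8 : ((8 - d : ℕ) : ℝ) = (8 : ℝ) - d := by
      rw [Nat.cast_sub (by omega)]; norm_num
    rw [← h8] at h
    exact_mod_cast h
  set n : ℝ := (Fintype.card ι : ℝ)
  have hd0 : (4 : ℝ) ≤ d := by exact_mod_cast hd4
  have h6 : n ^ 4 - 2 * d * n ^ 3 + 4 * s ^ 2 - (d - 4) * s * n ^ 2 ≤ 0 := by nlinarith
  have h7 : 4 * s ^ 2 - (d - 4) * s * n ^ 2 ≥ - ((d - 4) ^ 2 * n ^ 4) / 16 := by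
    nlinarith [sq_nonneg (2 * s - (d - 4) * n ^ 2 / 4)]
  have h8 : n ^ 3 * (d * ((8 - d) * n - 32)) ≤ 0 := by nlinarith
  have h9 : 0 < n ^ 3 := by positivity
  have h10 : d * ((8 - d) * n - 32) ≤ (0 : ℝ) := by
    by_contra hh
    rw [not_le] at hh
    nlinarith [mul_pos h9 hh]
  have h11 : (0 : ℝ) < d := by linarith
  by_contra hh
  rw [not_le] at hh
  nlinarith [mul_pos h11 (sub_pos.mpr hh)]

/-- In a strictly convex body, a separable configuration has a pairing matrix with unit diagonal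
and off-diagonal entries in `[-1, 0]`. -/
lemma pairing_of_config_strict {d : ℕ} (K : SymBody d) (hK : StrictConvex ℝ (K.1 : Set (E d)))
    (V : Finset (E d)) (hV : IsSepHadwigerConfig (K.1 : Set (E d)) V) :
    ∃ f : V → (E d →L[ℝ] ℝ), (∀ v : V, f v ((1 / 2 : ℝ) • (v : E d)) = 1) ∧
      ∀ v w : V, v ≠ w → -1 ≤ f v ((1 / 2 : ℝ) • (w : E d)) ∧
        f v ((1 / 2 : ℝ) • (w : E d)) ≤ 0 := by
  obtain ⟨h0, htouch, _, hsep⟩ := hV
  set B : Set (E d) := (K.1 : Set (E d)) with hB
  have hsym : ∀ x ∈ B, -x ∈ B := K.2.2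
  have hconv : Convex ℝ B := K.1.convex
  have hint : (0 : E d) ∈ interior B := zero_mem_interior K
  have hhalf : ∀ v ∈ V, (1 / 2 : ℝ) • v ∈ B := by
    intro v hv
    obtain ⟨x, ⟨z, hz, hzx⟩, hx⟩ := htouch v hv
    have hzx' : v + z = x := hzx
    have := hconv hx (hsym z hz) (a := 1 / 2) (b := 1 / 2) (by norm_num) (by norm_num)
      (by norm_num)
    have e : (1 / 2 : ℝ) • x + (1 / 2 : ℝ) • -z = (1 / 2 : ℝ) • v := by
      rw [← hzx']; module
    rwa [e] at this
  have hne0 : ∀ v ∈ V, (0 : E d) ≠ v := by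
    intro v hv h
    exact h0 (h ▸ hv)
  have htr : ∀ v x : E d, x ∈ B → v + x ∈ tr B v := fun v x hx => ⟨x, hx, rfl⟩
  have hex : ∀ v : V, ∃ f : E d →L[ℝ] ℝ, f ((1 / 2 : ℝ) • (v : E d)) = 1 ∧ (∀ z ∈ B, f z ≤ 1) ∧
      ∀ w ∈ V, Disjoint (interior (tr B w)) {x | f x = 1} := by
    rintro ⟨v, hv⟩
    obtain ⟨g, c, hg, hg1, hg2, hg3⟩ := hsep 0 (mem_insert _ _) v (mem_insert_of_mem _ hv)
      (hne0 v hv)
    have hg1' : ∀ z ∈ B, g z ≤ c := fun z hz => hg1 z (by simpa using htr 0 z hz)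
    have hcpos : 0 < c := by
      have := interior_le hg hg1' 0 hint
      simpa using this
    have hgv : g ((1 / 2 : ℝ) • v) = c := by
      apply le_antisymm (hg1' _ (hhalf v hv))
      have := hg2 _ (htr v _ (hsym _ (hhalf v hv)))
      have e : v + -((1 / 2 : ℝ) • v) = (1 / 2 : ℝ) • v := by module
      rwa [e] at this
    refine ⟨c⁻¹ • g, ?_, ?_, ?_⟩
    · show c⁻¹ * g ((1 / 2 : ℝ) • v) = 1
      rw [hgv]
      exact inv_mul_cancel₀ hcpos.ne'
    · intro z hz
      show c⁻¹ * g z ≤ 1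
      rw [inv_mul_le_iff₀ hcpos, mul_one]
      exact hg1' z hz
    · intro w hw
      have h := hg3 w (mem_insert_of_mem _ hw)
      rw [Set.disjoint_left] at h ⊢
      intro x hx hx'
      apply h hx
      have hx'' : c⁻¹ * g x = 1 := hx'
      show g x = c
      field_simp at hx''
      exact hx''
  choose f hf1 hf2 hf3 using hex
  refine ⟨f, hf1, ?_⟩
  intro v w hvw
  have hvw' : (v : E d) ≠ w := fun h => hvw (Subtype.ext h)
  have hwB := hhalf w w.2
  have hvB := hhalf v v.2
  constructor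
  · have := hf2 v _ (hsym _ hwB)
    rw [map_neg] at this
    linarith
  · by_contra hpos
    rw [not_le] at hpos
    have hval : f v ((1 / 2 : ℝ) • (w : E d)) = 1 := by
      apply le_antisymm (hf2 v _ hwB)
      by_contra hlt
      rw [not_le] at hlt
      have e1 : f v (w : E d) = 2 * f v ((1 / 2 : ℝ) • (w : E d)) := by
        rw [map_smul, smul_eq_mul]; ring
      let t : ℝ := 1 - f v (w : E d)
      have ht : |t| < 1 := by
        rw [abs_lt]
        constructor <;> simp only [t] <;> linarith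
      have hmem : (w : E d) + t • ((1 / 2 : ℝ) • (v : E d)) ∈ interior (tr B (w : E d)) := by
        have h1 := smul_mem_interior K hvB ht
        have h2 : (fun x => (w : E d) + x) '' interior B ⊆ interior (tr B (w : E d)) := by
          apply interior_maximal
          · exact image_mono interior_subset
          · exact (Homeomorph.addLeft (w : E d)).isOpenMap _ isOpen_interior
        exact h2 ⟨_, h1, rfl⟩
      have hd' := hf3 v w w.2
      rw [Set.disjoint_left] at hd'
      apply hd' hmem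
      show f v ((w : E d) + t • ((1 / 2 : ℝ) • (v : E d))) = 1
      rw [map_add, map_smul, hf1 v, smul_eq_mul, mul_one]
      simp only [t]
      ring
    -- strict convexity: the midpoint of the two touching points is an interior point
    have hne : (1 / 2 : ℝ) • (v : E d) ≠ (1 / 2 : ℝ) • (w : E d) := by
      intro h
      apply hvw'
      have := congrArg (fun z => (2 : ℝ) • z) h
      simpa [smul_smul] using this
    have hmid := hK hvB hwB hne (a := 1 / 2) (b := 1 / 2) (by norm_num) (by norm_num) (by norm_num)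
    have hf0 : f v ≠ 0 := by
      intro h
      have := hf1 v
      rw [h] at this
      simp at this
    have h3 := interior_le hf0 (hf2 v) _ hmid
    have a1 := hf1 v
    have a2 := hval
    simp only [map_add, map_smul, smul_eq_mul] at h3 a1 a2
    linarith

/-- A smooth or strictly convex body with the pairing property. -/
lemma exists_pairing {d : ℕ} (K : SymBody d)
    (hK : IsSmooth (K.1 : Set (E d)) ∨ StrictConvex ℝ (K.1 : Set (E d)))
    (V : Finset (E d)) (hV : IsSepHadwigerConfig (K.1 : Set (E d)) V) :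
    ∃ f : V → (E d →L[ℝ] ℝ), (∀ v : V, f v ((1 / 2 : ℝ) • (v : E d)) = 1) ∧
      ∀ v w : V, v ≠ w → -1 ≤ f v ((1 / 2 : ℝ) • (w : E d)) ∧
        f v ((1 / 2 : ℝ) • (w : E d)) ≤ 0 := by
  rcases hK with h | h
  · exact pairing_of_config K h V hV
  · exact pairing_of_config_strict K h V hV

/-- Dimensions at most five. -/
lemma Hsep_eq_of_regular {d : ℕ} (hd : d ≤ 5) (K : SymBody d)
    (hK : IsSmooth (K.1 : Set (E d)) ∨ StrictConvex ℝ (K.1 : Set (E d))) :
    Hsep (K.1 : Set (E d)) = 2 * (d : ℕ∞) := by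
  apply le_antisymm _ (le_Hsep K)
  apply iSup₂_le
  intro V hV
  obtain ⟨f, h1, h2⟩ := exists_pairing K hK V hV
  have := card_le hd (fun w : V => (1 / 2 : ℝ) • (w : E d)) f h1 h2
  rw [Fintype.card_coe] at this
  exact_mod_cast this

/-- Dimensions four to seven. -/
lemma Hsep_le_of_regular {d m : ℕ} (hd4 : 4 ≤ d) (hd7 : d ≤ 7) (hm : 32 < (8 - d) * (m + 1))
    (K : SymBody d) (hK : IsSmooth (K.1 : Set (E d)) ∨ StrictConvex ℝ (K.1 : Set (E d))) :
    Hsep (K.1 : Set (E d)) ≤ (m : ℕ∞) := by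
  apply iSup₂_le
  intro V hV
  obtain ⟨f, h1, h2⟩ := exists_pairing K hK V hV
  have := card_le_six_seven hd4 hd7 (fun w : V => (1 / 2 : ℝ) • (w : E d)) f h1 h2
  rw [Fintype.card_coe] at this
  have h3 : V.card ≤ m := by
    by_contra h
    rw [not_le] at h
    have : (8 - d) * (m + 1) ≤ (8 - d) * V.card := Nat.mul_le_mul_left _ h
    omega
  exact_mod_cast h3

end Pool.Agent.H513.SepHadwiger
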