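import Mathlib

set_option autoImplicit false

open Set

namespace Pool.Agent.H513.SepHadwiger

/-- Euclidean space of dimension `d`. -/
abbrev E (d : ℕ) := EuclideanSpace ℝ (Fin d)

/-- The space of convex bodies (compact, convex, nonempty interior) of dimension `d` that are
symmetric about the origin, with the Hausdorff metric inherited from `ConvexBody`. -/
abbrev SymBody (d : ℕ) :=
  {K : ConvexBody (E d) // (interior (K : Set (E d))).Nonempty ∧ ∀ x ∈ K, -x ∈ K}

/-- The translate of `K` by the vector `v`. -/
def tr {d : ℕ} (K : Set (E d)) (v : E d) : Set (E d) := (fun x => v + x) '' K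

/-- The translates of `K` by the vectors in `V` form a packing: their interiors are pairwise
disjoint. -/
def IsPacking {d : ℕ} (K : Set (E d)) (V : Set (E d)) : Prop :=
  ∀ u ∈ V, ∀ v ∈ V, u ≠ v → Disjoint (interior (tr K u)) (interior (tr K v))

/-- The family of translates of `K` by the vectors in `V` is totally separable: for every two
members there is a hyperplane `f = c` separating them which meets the interior of no member. -/
def IsTotallySeparable {d : ℕ} (K : Set (E d)) (V : Set (E d)) : Prop :=
  ∀ u ∈ V, ∀ v ∈ V, u ≠ v → ∃ f : E d →L[ℝ] ℝ, ∃ c : ℝ, f ≠ 0 ∧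
    (∀ x ∈ tr K u, f x ≤ c) ∧ (∀ x ∈ tr K v, c ≤ f x) ∧
    ∀ w ∈ V, Disjoint (interior (tr K w)) {x | f x = c}

/-- `V` is (the set of translation vectors of) a separable Hadwiger configuration of `K`:
translates of `K` other than `K`, each touching `K`, which together with `K` form a totally
separable packing. -/
def IsSepHadwigerConfig {d : ℕ} (K : Set (E d)) (V : Finset (E d)) : Prop :=
  0 ∉ V ∧ (∀ v ∈ V, (tr K v ∩ K).Nonempty) ∧
    IsPacking K (insert 0 (V : Set (E d))) ∧ IsTotallySeparable K (insert 0 (V : Set (E d)))

/-- The separable Hadwiger number: the supremum of the sizes of separable Hadwiger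
configurations. -/
noncomputable def Hsep {d : ℕ} (K : Set (E d)) : ℕ∞ :=
  ⨆ (V : Finset (E d)) (_ : IsSepHadwigerConfig K V), (V.card : ℕ∞)

/-- `K` is smooth: through each of its points there is at most one supporting hyperplane
`f = 1` (all supporting hyperplanes of an origin-symmetric convex body have this form). -/
def IsSmooth {d : ℕ} (K : Set (E d)) : Prop :=
  ∀ x ∈ K, ∀ f g : E d →L[ℝ] ℝ, f x = 1 → (∀ z ∈ K, f z ≤ 1) → g x = 1 → (∀ z ∈ K, g z ≤ 1) →
    f = g

end Pool.Agent.H513.SepHadwiger
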