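import Pool.Agent.H513.SepHadwigerDefs

set_option autoImplicit false

open Set

namespace Pool.Agent.H513.SepHadwiger

/-- A system of `m` vectors and `m` functionals in dimension `d` whose pairing matrix has unit
diagonal and off-diagonal entries strictly between minus one and zero, with a vector on which
all functionals are negative. -/
def SC (d m : ℕ) : Prop :=
  ∃ (x f : Fin m → Fin d → ℝ) (b : Fin d → ℝ), (∀ i, ∑ k, f i k * x i k = 1) ∧
    (∀ i j, i ≠ j → -1 < ∑ k, f i k * x j k ∧ ∑ k, f i k * x j k < 0) ∧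
    ∀ i, -1 < ∑ k, f i k * b k ∧ ∑ k, f i k * b k < 0

lemma SC_one : SC 1 1 := by
  refine ⟨fun _ _ => 1, fun _ _ => 1, fun _ => -1 / 2, ?_, ?_, ?_⟩
  · intro i; simp
  · intro i j h; exact absurd (Subsingleton.elim i j) h
  · intro i; simp; norm_num

lemma SC_add {d₁ m₁ d₂ m₂ : ℕ} (h₁ : SC d₁ m₁) (h₂ : SC d₂ m₂) : SC (d₁ + d₂) (m₁ + m₂) := by
  obtain ⟨x, f, b, hd, ho, hb⟩ := h₁
  obtain ⟨y, g, c, hd', ho', hb'⟩ := h₂
  refine ⟨Fin.addCases (fun i => Fin.append (x i) c) (fun j => Fin.append b (y j)),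
    Fin.addCases (fun i => Fin.append (f i) 0) (fun j => Fin.append 0 (g j)),
    Fin.append b c, ?_, ?_, ?_⟩
  · intro i
    refine Fin.addCases (fun i => ?_) (fun j => ?_) i
    · simp [Fin.sum_univ_add, hd i]
    · simp [Fin.sum_univ_add, hd' j]
  · intro i
    refine Fin.addCases (fun i => ?_) (fun i => ?_) i
    · intro j
      refine Fin.addCases (fun j => ?_) (fun j => ?_) j
      · intro hij
        have hne : i ≠ j := fun h => hij (by rw [h])
        simpa [Fin.sum_univ_add] using ho i j hne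
      · intro _
        simpa [Fin.sum_univ_add] using hb i
    · intro j
      refine Fin.addCases (fun j => ?_) (fun j => ?_) j
      · intro _
        simpa [Fin.sum_univ_add] using hb' i
      · intro hij
        have hne : i ≠ j := fun h => hij (by rw [h])
        simpa [Fin.sum_univ_add] using ho' i j hne
  · intro i
    refine Fin.addCases (fun i => ?_) (fun i => ?_) i
    · simpa [Fin.sum_univ_add] using hb i
    · simpa [Fin.sum_univ_add] using hb' i

/-- integer version of the conditions -/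
lemma SC_of_int {d m : ℕ} (x f : Fin m → Fin d → ℤ) (b : Fin d → ℤ)
    (h : ∀ i j, if i = j then 0 < ∑ k, f i k * x i k else
      (-(∑ k, f i k * x i k) < ∑ k, f i k * x j k ∧ ∑ k, f i k * x j k < 0))
    (hb : ∀ i, ∑ k, f i k * b k < 0) : SC d m := by
  have hpos : ∀ i, (0 : ℝ) < ∑ k, (f i k : ℝ) * (x i k : ℝ) := by
    intro i
    have := h i i
    rw [if_pos rfl] at this
    exact_mod_cast this
  -- a bound used to shrink the vector `b`
  let S : ℝ := 1 + ∑ i, |(∑ k, (f i k : ℝ) * (b k : ℝ)) / ∑ k, (f i k : ℝ) * (x i k : ℝ)|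
  have hS : 0 < S := by positivity
  refine ⟨fun i k => (x i k : ℝ), fun i k => (f i k : ℝ) / ∑ l, (f i l : ℝ) * (x i l : ℝ),
    fun k => (b k : ℝ) / S, ?_, ?_, ?_⟩
  · intro i
    have h1 : ∀ k, (f i k : ℝ) / (∑ l, (f i l : ℝ) * (x i l : ℝ)) * (x i k : ℝ) =
        (f i k : ℝ) * (x i k : ℝ) / ∑ l, (f i l : ℝ) * (x i l : ℝ) := fun k => by ring
    simp_rw [h1]
    rw [← Finset.sum_div]
    exact div_self (hpos i).ne'
  · intro i j hij
    have h1 : ∀ k, (f i k : ℝ) / (∑ l, (f i l : ℝ) * (x i l : ℝ)) * (x j k : ℝ) =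
        (f i k : ℝ) * (x j k : ℝ) / ∑ l, (f i l : ℝ) * (x i l : ℝ) := fun k => by ring
    simp only [h1]
    rw [← Finset.sum_div]
    have h2 := h i j
    rw [if_neg hij] at h2
    obtain ⟨h3, h4⟩ := h2
    have h3' : -(∑ k, (f i k : ℝ) * (x i k : ℝ)) < ∑ k, (f i k : ℝ) * (x j k : ℝ) := by
      exact_mod_cast h3
    have h4' : ∑ k, (f i k : ℝ) * (x j k : ℝ) < 0 := by exact_mod_cast h4
    refine ⟨?_, div_neg_of_neg_of_pos h4' (hpos i)⟩
    rw [lt_div_iff₀ (hpos i)]
    linarith
  · intro i
    have h1 : ∀ k, (f i k : ℝ) / (∑ l, (f i l : ℝ) * (x i l : ℝ)) * ((b k : ℝ) / S) =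
        (f i k : ℝ) * (b k : ℝ) / ((∑ l, (f i l : ℝ) * (x i l : ℝ)) * S) := fun k => by
      field_simp
    simp only [h1]
    rw [← Finset.sum_div]
    have h4' : ∑ k, (f i k : ℝ) * (b k : ℝ) < 0 := by exact_mod_cast hb i
    refine ⟨?_, div_neg_of_neg_of_pos h4' (mul_pos (hpos i) hS)⟩
    have hle : |(∑ k, (f i k : ℝ) * (b k : ℝ)) / ∑ k, (f i k : ℝ) * (x i k : ℝ)| < S := by
      have := Finset.single_le_sum
        (f := fun i => |(∑ k, (f i k : ℝ) * (b k : ℝ)) / ∑ k, (f i k : ℝ) * (x i k : ℝ)|)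
        (fun j _ => abs_nonneg _) (Finset.mem_univ i)
      linarith
    rw [abs_lt] at hle
    rw [← div_div, lt_div_iff₀ hS]
    linarith [hle.1]

def X7 : Fin 15 → Fin 7 → ℤ :=
  ![![119, -118, -33, 39, -30, 36, 48],
    ![-30, -115, 36, 18, -45, 106, -62],
    ![-88, -70, -40, -57, 95, -17, -48],
    ![-143, -14, -4, -62, -72, 48, 44],
    ![17, -30, -110, -80, 14, 136, 11],
    ![-33, 21, -23, 83, -30, 109, 108],
    ![34, -27, -67, 128, -12, -106, 50],
    ![-81, -73, 88, 115, 66, -10, 40],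
    ![79, -77, -152, -63, 0, -96, -20],
    ![24, -42, -81, -5, -169, 12, -3],
    ![22, -38, -78, 102, 81, 60, -68],
    ![-13, -131, 30, -12, -69, -133, 34],
    ![-56, 53, -171, 8, -23, 0, 11],
    ![-92, -42, -26, 81, -44, -65, -80],
    ![-17, -34, -38, -36, 71, -49, 124]]

def F7 : Fin 15 → Fin 7 → ℤ :=
  ![![208, -8, 84, 1, -6, 38, 37],
    ![24, -35, 128, -31, -38, 87, -129],
    ![-60, 20, 38, -109, 125, -28, -108],
    ![-106, 83, 75, -105, -65, 25, 3],
    ![68, 57, -15, -115, 43, 114, -11],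
    ![39, 124, 41, 55, -25, 79, 111],
    ![97, 112, 12, 111, -4, -105, 28],
    ![-10, 8, 143, 66, 78, -17, 10],
    ![120, 46, -36, -88, 28, -85, -60],
    ![73, 83, 23, -21, -175, -3, -54],
    ![71, 58, -7, 78, 98, 42, -117],
    ![44, -20, 136, -60, -60, -119, -13],
    ![-17, 203, -86, -7, -10, -26, -37],
    ![-63, 80, 46, 50, -53, -80, -169],
    ![36, 55, 37, -81, 102, -46, 142]]

def B7 : Fin 7 → ℤ := ![-51, -126, -162, -10, 14, -1, 46]

def X8 : Fin 22 → Fin 8 → ℤ :=
  ![![-511, 44, 953, -460, 328, -78, 153, 449],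
    ![37, -221, 287, -933, 234, 260, -16, -704],
    ![-619, -431, 292, 154, 42, 645, -425, -425],
    ![147, 565, 688, -124, 398, 688, -454, -246],
    ![-342, -107, -181, -808, -213, 576, -697, 330],
    ![-61, -220, 33, -946, -382, 7, 644, 320],
    ![-541, -442, 68, 85, -816, 492, 134, 480],
    ![560, -98, 77, -68, -380, 969, 125, -370],
    ![-827, 386, -86, -520, 634, 248, -78, -310],
    ![-510, -389, -666, -448, -146, 650, 391, -445],
    ![-398, 464, -357, 207, -86, 1100, -175, -26],
    ![-246, -263, 193, -204, 330, 1189, 540, 478],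
    ![-874, -215, 172, -503, -340, -585, 113, -387],
    ![-806, 564, 464, 81, -300, -68, -540, 101],
    ![-134, 422, 227, 144, 76, 147, 206, -1139],
    ![-89, 441, 92, 36, -843, -165, 651, -240],
    ![-853, 170, 313, 177, 143, 51, 992, 153],
    ![201, 76, 797, -337, -640, -240, -241, -150],
    ![169, 730, -321, -786, -126, 260, -11, -372],
    ![119, 586, 403, -156, -331, 439, 152, 716],
    ![-97, 266, 970, 763, -230, 443, 332, -105],
    ![329, 444, 738, -210, 389, 203, 941, -208]]

def F8 : Fin 22 → Fin 8 → ℤ :=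
  ![![21, -381, 457, -132, 756, -566, -258, 733],
    ![621, -731, -43, -508, 677, -342, -301, -469],
    ![-220, -848, 23, 586, 410, 37, -670, -297],
    ![604, 268, 229, 211, 726, 72, -777, 51],
    ![153, -282, -301, -381, 169, -15, -823, 550],
    ![525, -488, -329, -539, -58, -485, 434, 556],
    ![-57, -667, -255, 555, -548, -103, -58, 639],
    ![1003, -338, -231, 242, -208, 356, -36, -189],
    ![-369, 143, -551, 15, 1106, -350, -318, -39],
    ![-8, -632, -1006, 110, 227, -32, 271, -288],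
    ![41, 419, -836, 746, 207, 349, -340, 234],
    ![347, -600, -299, 245, 753, 317, 208, 729],
    ![-395, -574, -185, -7, 25, -932, -105, -220],
    ![-355, 391, -37, 584, 9, -537, -817, 381],
    ![269, 110, -329, 581, 319, -322, -38, -933],
    ![386, 324, -504, 505, -684, -580, 458, 3],
    ![-395, -98, -399, 686, 505, -509, 633, 393],
    ![653, -257, 492, -53, -443, -551, -501, 50],
    ![685, 670, -745, -335, 153, -247, -134, -68],
    ![586, 536, -83, 173, -123, -75, -85, 1022],
    ![326, -71, 328, 1117, -37, -111, -50, 119],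
    ![829, 106, 67, 87, 651, -293, 558, 97]]

def B8 : Fin 8 → ℤ := ![-949, 343, 1025, -927, -256, 823, 564, -463]


lemma SC_7 : SC 7 15 := by
  refine SC_of_int X7 F7 B7 ?_ ?_
  · decide +kernel
  · decide +kernel

lemma SC_8 : SC 8 22 := by
  refine SC_of_int X8 F8 B8 ?_ ?_
  · decide +kernel
  · decide +kernel

lemma SC_add_ones {d m : ℕ} (h : SC d m) (k : ℕ) : SC (d + k) (m + k) := by
  induction k with
  | zero => exact h
  | succ k ih =>
    have h1 := SC_add ih SC_one
    exact h1

/-- in every dimension at least seven there is a system with more than `2 d` members -/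
lemma exists_SC (d : ℕ) (hd : 7 ≤ d) : ∃ m, 2 * d < m ∧ SC d m := by
  induction d using Nat.strong_induction_on with
  | _ d ih =>
    rcases Nat.lt_or_ge d 8 with h | h
    · have : d = 7 := by omega
      subst this
      exact ⟨15, by norm_num, SC_7⟩
    rcases Nat.lt_or_ge d 14 with h' | h'
    · refine ⟨22 + (d - 8), by omega, ?_⟩
      have := SC_add_ones SC_8 (d - 8)
      rwa [show 8 + (d - 8) = d by omega] at this
    · obtain ⟨m, hm, hs⟩ := ih (d - 7) (by omega) (by omega)
      refine ⟨m + 15, by omega, ?_⟩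
      have := SC_add hs SC_7
      rwa [show d - 7 + 7 = d by omega] at this


lemma exists_pos_lb {ι : Type*} [Fintype ι] (g : ι → ℝ) (hg : ∀ i, 0 < g i) :
    ∃ δ : ℝ, 0 < δ ∧ ∀ i, δ ≤ g i := by
  have hS : 0 ≤ ∑ i, (g i)⁻¹ := Finset.sum_nonneg (fun i _ => (inv_pos.mpr (hg i)).le)
  refine ⟨(1 + ∑ i, (g i)⁻¹)⁻¹, by positivity, fun i => ?_⟩
  rw [inv_le_comm₀ (by positivity) (hg i)]
  have := Finset.single_le_sum (f := fun i => (g i)⁻¹)
    (fun j _ => (inv_pos.mpr (hg j)).le) (Finset.mem_univ i)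
  linarith

lemma interior_le {d : ℕ} {f : E d →L[ℝ] ℝ} (hf : f ≠ 0) {c : ℝ} {S : Set (E d)}
    (h : ∀ x ∈ S, f x ≤ c) : ∀ x ∈ interior S, f x < c := by
  intro x hx
  have ho : IsOpenMap f := f.isOpenMap_of_ne_zero hf
  have h1 : interior S ⊆ f ⁻¹' (interior (Iic c)) := by
    rw [ho.preimage_interior_eq_interior_preimage f.continuous]
    exact interior_mono h
  have := h1 hx
  rw [interior_Iic] at this
  exact this

/-- A matrix of pairings `f i (y j)` with `y j` in a `d`-dimensional space has rank at most `d`,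
so the square of its trace is at most `d` times its squared Frobenius norm. -/
lemma trace_sq_le {ι : Type*} [Fintype ι] {d : ℕ} (y : ι → E d) (f : ι → (E d →L[ℝ] ℝ)) :
    (∑ i, f i (y i)) ^ 2 ≤ d * ∑ i, ∑ j, (f i (y j)) ^ 2 := by
  classical
  -- the map sending a vector to its pairings
  let Φ : E d →ₗ[ℝ] EuclideanSpace ℝ ι :=
    { toFun := fun z => WithLp.toLp 2 (fun i => f i z)
      map_add' := fun a b => by ext i; simp
      map_smul' := fun a b => by ext i; simp }
  have hΦ : ∀ z i, Φ z i = f i z := fun z i => rfl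
  let W := LinearMap.range Φ
  have hW : Module.finrank ℝ W ≤ d := by
    have := LinearMap.finrank_range_le Φ
    simpa using this
  let b := stdOrthonormalBasis ℝ W
  let r := Module.finrank ℝ W
  let w : ι → W := fun j => ⟨Φ (y j), ⟨y j, rfl⟩⟩
  have hexp : ∀ j, f j (y j) = ∑ k : Fin r, inner ℝ (b k) (w j) * ((b k : EuclideanSpace ℝ ι) j) := by
    intro j
    have h1 := b.sum_repr' (w j)
    have h2 : (w j : EuclideanSpace ℝ ι) = ∑ k, inner ℝ (b k) (w j) • (b k : EuclideanSpace ℝ ι) := by
      conv_lhs => rw [← h1]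
      simp
    have h3 : Φ (y j) j = (∑ k, inner ℝ (b k) (w j) • (b k : EuclideanSpace ℝ ι)) j := by
      rw [← h2]
    rw [hΦ] at h3
    rw [h3]
    simp
    rfl
  have hnorm : ∀ j, ∑ k : Fin r, (inner ℝ (b k) (w j)) ^ 2 = ∑ i, (f i (y j)) ^ 2 := by
    intro j
    have h1 := b.sum_sq_norm_inner_right (w j)
    have h2 : ‖w j‖ ^ 2 = ∑ i, (f i (y j)) ^ 2 := by
      have : ‖w j‖ = ‖Φ (y j)‖ := rfl
      rw [this, EuclideanSpace.norm_sq_eq]
      simp [hΦ]
    rw [← h2, ← h1]
    simp
    rfl
  have hb : ∀ k : Fin r, ∑ i, ((b k : EuclideanSpace ℝ ι) i) ^ 2 = 1 := by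
    intro k
    have h1 : ‖(b k : EuclideanSpace ℝ ι)‖ = 1 := b.norm_eq_one k
    have h2 := EuclideanSpace.norm_sq_eq (b k : EuclideanSpace ℝ ι)
    rw [h1] at h2
    simpa using h2.symm
  have hcs := Finset.sum_mul_sq_le_sq_mul_sq (Finset.univ : Finset (ι × Fin r))
    (fun p => inner ℝ (b p.2) (w p.1)) (fun p => (b p.2 : EuclideanSpace ℝ ι) p.1)
  rw [Fintype.sum_prod_type, Fintype.sum_prod_type, Fintype.sum_prod_type] at hcs
  have e1 : ∑ i, f i (y i) = ∑ x : ι, ∑ k : Fin r,
      inner ℝ (b k) (w x) * ((b k : EuclideanSpace ℝ ι) x) :=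
    Finset.sum_congr rfl (fun j _ => hexp j)
  have e2 : ∑ x : ι, ∑ k : Fin r, (inner ℝ (b k) (w x)) ^ 2 = ∑ i, ∑ j, (f i (y j)) ^ 2 := by
    rw [Finset.sum_congr rfl (fun j _ => hnorm j), Finset.sum_comm]
  have e3 : ∑ x : ι, ∑ k : Fin r, ((b k : EuclideanSpace ℝ ι) x) ^ 2 = r := by
    rw [Finset.sum_comm, Finset.sum_congr rfl (fun k _ => hb k)]
    simp
  rw [e1]
  refine hcs.trans ?_
  rw [e2, e3, mul_comm]
  have : (r : ℝ) ≤ d := by exact_mod_cast hW
  gcongr

/-- The pairing matrix of a separable configuration: unit diagonal, off-diagonal entries in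
`[-1, 0]`.  The two trace inequalities. -/
lemma two_ineq {ι : Type*} [Fintype ι] {d : ℕ} (y : ι → E d) (f : ι → (E d →L[ℝ] ℝ))
    (h1 : ∀ i, f i (y i) = 1) (h2 : ∀ i j, i ≠ j → -1 ≤ f i (y j) ∧ f i (y j) ≤ 0) :
    ∃ s : ℝ, (Fintype.card ι : ℝ) ^ 2 ≤ d * (2 * Fintype.card ι + s) ∧
      ((Fintype.card ι : ℝ) ^ 2 + 2 * s) ^ 2 ≤
        d * (2 * Fintype.card ι + s) * (Fintype.card ι : ℝ) ^ 2 := by
  classical
  set n : ℝ := (Fintype.card ι : ℝ) with hn
  let c : ι → ℝ := fun j => ∑ i, f i (y j)
  let S : ℝ := ∑ i, ∑ j, f i (y j)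
  have hSc : ∑ j, c j = S := Finset.sum_comm
  have hF : ∑ i, ∑ j, (f i (y j)) ^ 2 ≤ 2 * n - S := by
    have h : ∀ i j, (f i (y j)) ^ 2 ≤ (if i = j then 2 else 0) - f i (y j) := by
      intro i j
      by_cases hij : i = j
      · subst hij
        rw [h1 i]
        norm_num
      · obtain ⟨ha, hb⟩ := h2 i j hij
        rw [if_neg hij]
        nlinarith
    calc ∑ i, ∑ j, (f i (y j)) ^ 2 ≤ ∑ i, ∑ j, ((if i = j then (2 : ℝ) else 0) - f i (y j)) :=
          Finset.sum_le_sum (fun i _ => Finset.sum_le_sum (fun j _ => h i j))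
      _ = 2 * n - S := by
          simp only [Finset.sum_sub_distrib, Finset.sum_ite_eq, Finset.mem_univ, if_true]
          rw [Finset.sum_const, Finset.card_univ, nsmul_eq_mul, mul_comm]
  refine ⟨-S, ?_, ?_⟩
  · have h := trace_sq_le y f
    simp only [h1] at h
    rw [Finset.sum_const, Finset.card_univ, nsmul_eq_mul, mul_one] at h
    refine h.trans ?_
    have : (0 : ℝ) ≤ d := Nat.cast_nonneg d
    have h3 : 2 * n + -S = 2 * n - S := by ring
    rw [h3]
    gcongr
  · rcases isEmpty_or_nonempty ι with hι | hι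
    · have hS0 : S = 0 := by simp [S]
      have hn0 : n = 0 := by simp [hn]
      rw [hS0, hn0]
      norm_num
    have hnpos : 0 < n := by
      rw [hn]
      exact_mod_cast Fintype.card_pos
    let g : ι → (E d →L[ℝ] ℝ) := fun i => f i - (2 / n) • ∑ k, f k
    have hg : ∀ i j, g i (y j) = f i (y j) - (2 / n) * c j := by
      intro i j
      simp [g, c]
    have h := trace_sq_le y g
    have ht : ∑ i, g i (y i) = n - (2 / n) * S := by
      simp only [hg, h1]
      rw [Finset.sum_sub_distrib, ← Finset.mul_sum, hSc, Finset.sum_const, Finset.card_univ,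
        nsmul_eq_mul, mul_one]
    have hq : ∑ i, ∑ j, (g i (y j)) ^ 2 = ∑ i, ∑ j, (f i (y j)) ^ 2 := by
      rw [Finset.sum_comm, Finset.sum_comm (f := fun i j => (f i (y j)) ^ 2)]
      refine Finset.sum_congr rfl (fun j _ => ?_)
      have e : ∀ i, (g i (y j)) ^ 2 = (f i (y j)) ^ 2 - (4 / n * c j) * f i (y j)
          + (4 / n ^ 2) * (c j) ^ 2 := by
        intro i
        rw [hg]
        field_simp
        ring
      simp only [e]
      rw [Finset.sum_add_distrib, Finset.sum_sub_distrib, ← Finset.mul_sum, Finset.sum_const,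
        Finset.card_univ, nsmul_eq_mul]
      have : ∑ i, f i (y j) = c j := rfl
      rw [this, ← hn]
      field_simp
      ring
    rw [ht, hq] at h
    have h4 : (n - 2 / n * S) ^ 2 ≤ d * (2 * n - S) := h.trans (by
      have : (0 : ℝ) ≤ d := Nat.cast_nonneg d
      gcongr)
    have h5 : (n ^ 2 + 2 * -S) ^ 2 = (n - 2 / n * S) ^ 2 * n ^ 2 := by
      field_simp
      ring
    rw [h5]
    have h3 : 2 * n + -S = 2 * n - S := by ring
    rw [h3]
    gcongr

/-- The pairing matrix bound: at most `2 d` members when `d ≤ 5`. -/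
lemma card_le {ι : Type*} [Fintype ι] {d : ℕ} (hd : d ≤ 5) (y : ι → E d)
    (f : ι → (E d →L[ℝ] ℝ))
    (h1 : ∀ i, f i (y i) = 1) (h2 : ∀ i j, i ≠ j → -1 ≤ f i (y j) ∧ f i (y j) ≤ 0) :
    Fintype.card ι ≤ 2 * d := by
  obtain ⟨s, ha, hb⟩ := two_ineq y f h1 h2
  by_contra hlt
  rw [not_le] at hlt
  have hn : (2 * d + 1 : ℝ) ≤ Fintype.card ι := by exact_mod_cast hlt
  set n : ℝ := (Fintype.card ι : ℝ)
  have hd0 : (0 : ℝ) ≤ d := Nat.cast_nonneg d
  rcases Nat.lt_or_ge d 5 with h | h
  · have hd4 : (d : ℝ) ≤ 4 := by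
      have : d ≤ 4 := by omega
      exact_mod_cast this
    have hn1 : 1 ≤ n := by linarith
    have hs : 0 < d * s ∨ d * s = 0 ∧ d = 0 := by
      rcases Nat.eq_zero_or_pos d with h0 | h0
      · right; subst h0; simp
      · left; nlinarith
    rcases hs with hs | ⟨_, h0⟩
    · have hs' : 0 < s := by
        by_contra hneg
        rw [not_lt] at hneg
        nlinarith
      -- (n² + 2 s)² ≤ d (2n + s) n²
      have hn2 : 0 < n ^ 2 := by positivity
      have h6 : (n ^ 2) ^ 2 + 4 * s * n ^ 2 ≤ d * (2 * n + s) * n ^ 2 := by nlinarith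
      have h7 : n ^ 2 + 4 * s ≤ d * (2 * n + s) := by
        by_contra h8
        rw [not_le] at h8
        nlinarith
      nlinarith
    · subst h0
      simp at ha
      nlinarith
  · have hd5 : d = 5 := by omega
    subst hd5
    have hn11 : 11 ≤ n := by norm_num at hn; linarith
    norm_num at hb
    -- n⁴ + 4 s n² + 4 s² ≤ 10 n³ + 5 s n²
    have h6 : n ^ 4 - 10 * n ^ 3 + 4 * s ^ 2 - s * n ^ 2 ≤ 0 := by nlinarith
    have h7 : 4 * s ^ 2 - s * n ^ 2 ≥ - n ^ 4 / 16 := by nlinarith [sq_nonneg (2 * s - n ^ 2 / 4)]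
    have h8 : n ^ 3 * (15 / 16 * n - 10) ≤ 0 := by nlinarith
    have h9 : 0 < n ^ 3 := by positivity
    nlinarith


lemma zero_mem_interior {d : ℕ} (K : SymBody d) : (0 : E d) ∈ interior (K.1 : Set (E d)) := by
  obtain ⟨x, hx⟩ := K.2.1
  have hneg : -x ∈ interior (K.1 : Set (E d)) := by
    have h1 : -(interior (K.1 : Set (E d))) ⊆ interior (K.1 : Set (E d)) := by
      apply interior_maximal
      · intro z hz
        have := K.2.2 _ (interior_subset hz)
        simpa using this
      · exact isOpen_interior.neg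
    exact h1 (by simpa using hx)
  have hc : Convex ℝ (interior (K.1 : Set (E d))) := K.1.convex.interior
  have := hc hx hneg (a := 1 / 2) (b := 1 / 2) (by norm_num) (by norm_num) (by norm_num)
  simpa using this

lemma smul_mem_interior {d : ℕ} (K : SymBody d) {x : E d} (hx : x ∈ (K.1 : Set (E d))) {t : ℝ}
    (ht : |t| < 1) : t • x ∈ interior (K.1 : Set (E d)) := by
  have key : ∀ z ∈ (K.1 : Set (E d)), ∀ s : ℝ, 0 ≤ s → s < 1 →
      s • z ∈ interior (K.1 : Set (E d)) := by
    intro z hz s hs hs1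
    have h := K.1.convex.combo_interior_self_mem_interior (zero_mem_interior K) hz
      (a := 1 - s) (b := s) (by linarith) hs (by ring)
    simpa using h
  rcases le_or_gt 0 t with h | h
  · exact key x hx t h (lt_of_abs_lt ht)
  · have := key (-x) (K.2.2 x hx) (-t) (by linarith) (by rw [abs_lt] at ht; linarith)
    simpa using this

/-- In a smooth body, a separable configuration has a pairing matrix with unit diagonal and
off-diagonal entries in `[-1, 0]`. -/
lemma pairing_of_config {d : ℕ} (K : SymBody d) (hK : IsSmooth (K.1 : Set (E d)))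
    (V : Finset (E d)) (hV : IsSepHadwigerConfig (K.1 : Set (E d)) V) :
    ∃ f : V → (E d →L[ℝ] ℝ), (∀ v : V, f v ((1 / 2 : ℝ) • (v : E d)) = 1) ∧
      ∀ v w : V, v ≠ w → -1 ≤ f v ((1 / 2 : ℝ) • (w : E d)) ∧
        f v ((1 / 2 : ℝ) • (w : E d)) ≤ 0 := by
  obtain ⟨h0, htouch, _, hsep⟩ := hV
  set B : Set (E d) := (K.1 : Set (E d)) with hB
  have hsym : ∀ x ∈ B, -x ∈ B := K.2.2
  have hconv : Convex ℝ B := K.1.convex
  have hint : (0 : E d) ∈ interior B := zero_mem_interior K
  -- the half vectors lie in the body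
  have hhalf : ∀ v ∈ V, (1 / 2 : ℝ) • v ∈ B := by
    intro v hv
    obtain ⟨x, ⟨z, hz, hzx⟩, hx⟩ := htouch v hv
    have hzx' : v + z = x := hzx
    have := hconv hx (hsym z hz) (a := 1 / 2) (b := 1 / 2) (by norm_num) (by norm_num)
      (by norm_num)
    have e : (1 / 2 : ℝ) • x + (1 / 2 : ℝ) • -z = (1 / 2 : ℝ) • v := by
      rw [← hzx']; module
    rwa [e] at this
  have hne0 : ∀ v ∈ V, (0 : E d) ≠ v := by
    intro v hv h
    exact h0 (h ▸ hv)
  have htr : ∀ v x : E d, x ∈ B → v + x ∈ tr B v := fun v x hx => ⟨x, hx, rfl⟩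
  -- the separating functionals
  have hex : ∀ v : V, ∃ f : E d →L[ℝ] ℝ, f ((1 / 2 : ℝ) • (v : E d)) = 1 ∧ (∀ z ∈ B, f z ≤ 1) ∧
      ∀ w ∈ V, Disjoint (interior (tr B w)) {x | f x = 1} := by
    rintro ⟨v, hv⟩
    obtain ⟨g, c, hg, hg1, hg2, hg3⟩ := hsep 0 (mem_insert _ _) v (mem_insert_of_mem _ hv)
      (hne0 v hv)
    have hg1' : ∀ z ∈ B, g z ≤ c := fun z hz => hg1 z (by simpa using htr 0 z hz)
    have hcpos : 0 < c := by
      have := interior_le hg hg1' 0 hint
      simpa using this
    have hgv : g ((1 / 2 : ℝ) • v) = c := by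
      apply le_antisymm (hg1' _ (hhalf v hv))
      have := hg2 _ (htr v _ (hsym _ (hhalf v hv)))
      have e : v + -((1 / 2 : ℝ) • v) = (1 / 2 : ℝ) • v := by module
      rwa [e] at this
    refine ⟨c⁻¹ • g, ?_, ?_, ?_⟩
    · show c⁻¹ * g ((1 / 2 : ℝ) • v) = 1
      rw [hgv]
      exact inv_mul_cancel₀ hcpos.ne'
    · intro z hz
      show c⁻¹ * g z ≤ 1
      rw [inv_mul_le_iff₀ hcpos, mul_one]
      exact hg1' z hz
    · intro w hw
      have h := hg3 w (mem_insert_of_mem _ hw)
      rw [Set.disjoint_left] at h ⊢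
      intro x hx hx'
      apply h hx
      have hx'' : c⁻¹ * g x = 1 := hx'
      show g x = c
      field_simp at hx''
      exact hx''
  choose f hf1 hf2 hf3 using hex
  refine ⟨f, hf1, ?_⟩
  intro v w hvw
  have hvw' : (v : E d) ≠ w := fun h => hvw (Subtype.ext h)
  have hwB := hhalf w w.2
  have hvB := hhalf v v.2
  constructor
  · have := hf2 v _ (hsym _ hwB)
    rw [map_neg] at this
    linarith
  · by_contra hpos
    rw [not_le] at hpos
    -- first, the value must be one
    have hval : f v ((1 / 2 : ℝ) • (w : E d)) = 1 := by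
      apply le_antisymm (hf2 v _ hwB)
      by_contra hlt
      rw [not_le] at hlt
      have e1 : f v (w : E d) = 2 * f v ((1 / 2 : ℝ) • (w : E d)) := by
        rw [map_smul, smul_eq_mul]; ring
      let t : ℝ := 1 - f v (w : E d)
      have ht : |t| < 1 := by
        rw [abs_lt]
        constructor <;> simp only [t] <;> linarith
      have hmem : (w : E d) + t • ((1 / 2 : ℝ) • (v : E d)) ∈ interior (tr B (w : E d)) := by
        have h1 := smul_mem_interior K hvB ht
        have h2 : (fun x => (w : E d) + x) '' interior B ⊆ interior (tr B (w : E d)) := by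
          apply interior_maximal
          · exact image_mono interior_subset
          · exact (Homeomorph.addLeft (w : E d)).isOpenMap _ isOpen_interior
        exact h2 ⟨_, h1, rfl⟩
      have hd' := hf3 v w w.2
      rw [Set.disjoint_left] at hd'
      apply hd' hmem
      show f v ((w : E d) + t • ((1 / 2 : ℝ) • (v : E d))) = 1
      rw [map_add, map_smul, hf1 v, smul_eq_mul, mul_one]
      simp only [t]
      ring
    -- so both functionals support the body at the same point
    have hfe : f v = f w := hK _ hwB (f v) (f w) hval (hf2 v) (hf1 w) (hf2 w)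
    -- use the hyperplane separating the two translates
    obtain ⟨g, c, hg, hg1, hg2, hg3⟩ := hsep v (mem_insert_of_mem _ v.2) w
      (mem_insert_of_mem _ w.2) hvw'
    have hdis := hg3 0 (mem_insert _ _)
    have htr0 : tr B 0 = B := by
      ext x; simp [tr]
    rw [htr0, Set.disjoint_left] at hdis
    rcases le_or_gt 0 c with hc | hc
    · -- `g ≤ c` on the body
      have hgB : ∀ x ∈ B, g x ≤ c := by
        intro x hx
        by_contra hgt
        rw [not_le] at hgt
        have hgx : 0 < g x := lt_of_le_of_lt hc hgt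
        have ht : |c / g x| < 1 := by
          rw [abs_of_nonneg (div_nonneg hc hgx.le), div_lt_one hgx]
          exact hgt
        apply hdis (smul_mem_interior K hx ht)
        show g ((c / g x) • x) = c
        rw [map_smul, smul_eq_mul, div_mul_cancel₀ _ hgx.ne']
      have hcpos : 0 < c := by
        have := interior_le hg hgB 0 hint
        simpa using this
      have hgw : g ((1 / 2 : ℝ) • (w : E d)) = c := by
        apply le_antisymm (hgB _ hwB)
        have := hg2 _ (htr w _ (hsym _ hwB))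
        have e : (w : E d) + -((1 / 2 : ℝ) • (w : E d)) = (1 / 2 : ℝ) • (w : E d) := by module
        rwa [e] at this
      have hG : c⁻¹ • g = f v := by
        rw [hfe]
        apply hK _ hwB
        · show c⁻¹ * g ((1 / 2 : ℝ) • (w : E d)) = 1
          rw [hgw]
          exact inv_mul_cancel₀ hcpos.ne'
        · intro z hz
          show c⁻¹ * g z ≤ 1
          rw [inv_mul_le_iff₀ hcpos, mul_one]
          exact hgB z hz
        · exact hf1 w
        · exact hf2 w
      have h3 := hg1 _ (htr v _ hvB)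
      have h4 : g ((v : E d) + (1 / 2 : ℝ) • (v : E d)) = 3 * g ((1 / 2 : ℝ) • (v : E d)) := by
        rw [map_add, map_smul, smul_eq_mul]; ring
      have h5 : c⁻¹ * g ((1 / 2 : ℝ) • (v : E d)) = 1 := by
        have : (c⁻¹ • g) ((1 / 2 : ℝ) • (v : E d)) = 1 := by rw [hG]; exact hf1 v
        exact this
      have h6 : g ((1 / 2 : ℝ) • (v : E d)) = c := by
        field_simp at h5
        linarith
      rw [h4, h6] at h3
      linarith
    · -- `c ≤ g` on the body
      have hgB : ∀ x ∈ B, c ≤ g x := by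
        intro x hx
        by_contra hgt
        rw [not_le] at hgt
        have hgx : g x < 0 := lt_trans hgt hc
        have ht : |c / g x| < 1 := by
          rw [abs_of_nonneg (div_nonneg_of_nonpos hc.le hgx.le), div_lt_one_of_neg hgx]
          exact hgt
        apply hdis (smul_mem_interior K hx ht)
        show g ((c / g x) • x) = c
        rw [map_smul, smul_eq_mul, div_mul_cancel₀ _ hgx.ne]
      have hgv : g ((1 / 2 : ℝ) • (v : E d)) = c := by
        apply le_antisymm _ (hgB _ hvB)
        have := hg1 _ (htr v _ (hsym _ hvB))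
        have e : (v : E d) + -((1 / 2 : ℝ) • (v : E d)) = (1 / 2 : ℝ) • (v : E d) := by module
        rwa [e] at this
      have hG : c⁻¹ • g = f v := by
        apply hK _ hvB
        · show c⁻¹ * g ((1 / 2 : ℝ) • (v : E d)) = 1
          rw [hgv]
          exact inv_mul_cancel₀ hc.ne
        · intro z hz
          show c⁻¹ * g z ≤ 1
          have h1 := hgB z hz
          have h2 : c⁻¹ < 0 := inv_lt_zero.mpr hc
          have h3 : c⁻¹ * g z ≤ c⁻¹ * c := mul_le_mul_of_nonpos_left h1 h2.le
          rwa [inv_mul_cancel₀ hc.ne] at h3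
        · exact hf1 v
        · exact hf2 v
      have h3 := hg2 _ (htr w _ hwB)
      have h4 : g ((w : E d) + (1 / 2 : ℝ) • (w : E d)) = 3 * g ((1 / 2 : ℝ) • (w : E d)) := by
        rw [map_add, map_smul, smul_eq_mul]; ring
      have h5 : c⁻¹ * g ((1 / 2 : ℝ) • (w : E d)) = 1 := by
        have : (c⁻¹ • g) ((1 / 2 : ℝ) • (w : E d)) = 1 := by rw [hG]; exact hval
        exact this
      have h6 : g ((1 / 2 : ℝ) • (w : E d)) = c := by
        have hc' := hc.ne
        field_simp at h5
        linarith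
      rw [h4, h6] at h3
      linarith

/-- Translates `2 y i + K` touching `K`, with nonpositive off-diagonal pairings, form a
separable Hadwiger configuration. -/
lemma config_of_nonpos {d : ℕ} {ι : Type*} [Fintype ι] {K : Set (E d)} (hK : ∀ x ∈ K, -x ∈ K)
    (y : ι → E d) (f : ι → (E d →L[ℝ] ℝ)) (hy : ∀ i, y i ∈ K)
    (hmax : ∀ i, ∀ x ∈ K, f i x ≤ f i (y i))
    (hpos : ∀ i, 0 < f i (y i)) (hneg : ∀ i j, i ≠ j → f i (y j) ≤ 0) :
    ∃ V : Finset (E d), V.card = Fintype.card ι ∧ IsSepHadwigerConfig K V := by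
  classical
  have hinj : Function.Injective (fun i => (2 : ℝ) • y i) := by
    intro i j hij
    by_contra hne
    have h1 : y i = y j := by
      have := congrArg (fun z => (1 / 2 : ℝ) • z) hij
      simpa [smul_smul] using this
    have h2 := hneg i j hne
    rw [← h1] at h2
    exact absurd (hpos i) (not_lt.mpr h2)
  have hf0 : ∀ i, f i ≠ 0 := by
    intro i h0
    have := hpos i
    rw [h0] at this
    simp at this
  have hmin : ∀ i, ∀ x ∈ K, -(f i (y i)) ≤ f i x := by
    intro i x hx
    have := hmax i _ (hK x hx)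
    rw [map_neg] at this
    linarith
  let W : Set (E d) := insert 0 ((Finset.univ.image (fun i => (2 : ℝ) • y i) : Finset (E d)) : Set (E d))
  have hW : ∀ w ∈ W, w = 0 ∨ ∃ i, w = (2 : ℝ) • y i := by
    intro w hw
    rcases hw with hw | hw
    · exact Or.inl hw
    · right
      simp only [Finset.coe_image, Finset.coe_univ, image_univ, mem_range] at hw
      obtain ⟨i, hi⟩ := hw
      exact ⟨i, hi.symm⟩
  -- the translate by `2 y i` lies above the hyperplane
  have up : ∀ i, ∀ x ∈ tr K ((2 : ℝ) • y i), f i (y i) ≤ f i x := by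
    rintro i _ ⟨x, hx, rfl⟩
    have := hmin i x hx
    simp only [map_add, map_smul, smul_eq_mul]
    linarith
  -- all others lie below
  have down : ∀ i, ∀ w ∈ W, w ≠ (2 : ℝ) • y i → ∀ x ∈ tr K w, f i x ≤ f i (y i) := by
    rintro i w hw hne _ ⟨x, hx, rfl⟩
    have h1 := hmax i x hx
    rcases hW w hw with rfl | ⟨j, rfl⟩
    · simpa using h1
    · have hij : i ≠ j := by
        rintro rfl
        exact hne rfl
      have := hneg i j hij
      simp only [map_add, map_smul, smul_eq_mul]
      linarith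
  have miss : ∀ i, ∀ w ∈ W, Disjoint (interior (tr K w)) {x | f i x = f i (y i)} := by
    intro i w hw
    rw [Set.disjoint_left]
    intro x hx hx'
    have hx' : f i x = f i (y i) := hx'
    by_cases h : w = (2 : ℝ) • y i
    · subst h
      have hneg' : -(f i) ≠ 0 := neg_ne_zero.mpr (hf0 i)
      have := interior_le (c := -(f i (y i))) hneg' (fun x hx => by
        have := up i x hx
        show (-(f i)) x ≤ -(f i (y i))
        simp only [neg_apply]
        linarith) x hx
      simp only [neg_apply] at this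
      linarith
    · have := interior_le (hf0 i) (down i w hw h) x hx
      linarith
  have hsep : IsTotallySeparable K W := by
    intro u hu v hv huv
    rcases hW v hv with hv0 | ⟨j, hvj⟩
    · rcases hW u hu with hu0 | ⟨i, hui⟩
      · exact absurd (hu0.trans hv0.symm) huv
      · refine ⟨-(f i), -(f i (y i)), neg_ne_zero.mpr (hf0 i), ?_, ?_, ?_⟩
        · intro x hx
          rw [hui] at hx
          have := up i x hx
          simp only [neg_apply]
          linarith
        · intro x hx
          have := down i v hv (fun h => huv (hui.trans h.symm)) x hx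
          simp only [neg_apply]
          linarith
        · intro w hw
          have := miss i w hw
          simpa [neg_inj] using this
    · refine ⟨f j, f j (y j), hf0 j, ?_, ?_, miss j⟩
      · exact down j u hu (fun h => huv (h.trans hvj.symm))
      · rw [hvj]
        exact up j
  refine ⟨Finset.univ.image (fun i => (2 : ℝ) • y i), ?_, ?_, ?_, ?_, hsep⟩
  · rw [Finset.card_image_of_injective _ hinj]
    simp
  · intro h0
    simp only [Finset.mem_image, Finset.mem_univ, true_and] at h0
    obtain ⟨i, hi⟩ := h0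
    have := hpos i
    have h1 : y i = 0 := by
      have := congrArg (fun z => (1 / 2 : ℝ) • z) hi
      simpa [smul_smul] using this
    rw [h1] at this
    simp at this
  · intro v hv
    simp only [Finset.mem_image, Finset.mem_univ, true_and] at hv
    obtain ⟨i, rfl⟩ := hv
    refine ⟨y i, ⟨-(y i), hK _ (hy i), ?_⟩, hy i⟩
    module
  · intro u hu v hv huv
    obtain ⟨g, c, hg, h1, h2, _⟩ := hsep u hu v hv huv
    rw [Set.disjoint_left]
    intro x hx hx'
    have a1 := interior_le hg h1 x hx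
    have a2 := interior_le (c := -c) (neg_ne_zero.mpr hg) (fun x hx => by
        have := h2 x hx
        show (-g) x ≤ -c
        simp only [neg_apply]
        linarith) x hx'
    simp only [neg_apply] at a2
    linarith

/-- The determinant of `d` vectors of the `d`-dimensional space. -/
noncomputable def vol {d : ℕ} (u : Fin d → E d) : ℝ :=
  Matrix.det (Matrix.of fun i j => (u i) j)

lemma continuous_vol {d : ℕ} : Continuous (vol : (Fin d → E d) → ℝ) := by
  unfold vol
  apply Continuous.matrix_det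
  fun_prop

lemma vol_update_add {d : ℕ} (u : Fin d → E d) (i : Fin d) (a b : E d) :
    vol (Function.update u i (a + b)) = vol (Function.update u i a) + vol (Function.update u i b) := by
  have h : ∀ z : E d, (Matrix.of fun k j => (Function.update u i z k) j) =
      Matrix.updateRow (Matrix.of fun k j => (u k) j) i (fun j => z j) := by
    intro z
    ext k j
    by_cases hk : k = i
    · subst hk; simp
    · simp [hk]
  unfold vol
  rw [h, h, h, ← Matrix.det_updateRow_add]
  rfl

lemma vol_update_smul {d : ℕ} (u : Fin d → E d) (i : Fin d) (c : ℝ) (a : E d) :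
    vol (Function.update u i (c • a)) = c * vol (Function.update u i a) := by
  have h : ∀ z : E d, (Matrix.of fun k j => (Function.update u i z k) j) =
      Matrix.updateRow (Matrix.of fun k j => (u k) j) i (fun j => z j) := by
    intro z
    ext k j
    by_cases hk : k = i
    · subst hk; simp
    · simp [hk]
  unfold vol
  rw [h, h, ← Matrix.det_updateRow_smul]
  rfl

/-- Auerbach: biorthogonal vectors and supporting functionals. -/
lemma auerbach {d : ℕ} (K : SymBody d) :
    ∃ (u : Fin d → E d) (F : Fin d → (E d →L[ℝ] ℝ)), (∀ i, u i ∈ (K.1 : Set (E d))) ∧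
      (∀ i, ∀ x ∈ (K.1 : Set (E d)), F i x ≤ 1) ∧ (∀ i, F i (u i) = 1) ∧
      ∀ i j, i ≠ j → F i (u j) = 0 := by
  classical
  set B : Set (E d) := (K.1 : Set (E d)) with hB
  have hcomp : IsCompact (Set.pi univ (fun _ : Fin d => B)) :=
    isCompact_univ_pi (fun _ => K.1.isCompact)
  have hne : (Set.pi univ (fun _ : Fin d => B)).Nonempty :=
    ⟨fun _ => 0, fun _ _ => interior_subset (zero_mem_interior K)⟩
  obtain ⟨u, hu, hmax⟩ := hcomp.exists_isMaxOn hne continuous_vol.continuousOn
  have hu' : ∀ i, u i ∈ B := fun i => hu i (mem_univ i)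
  -- the maximum is positive
  have hpos : 0 < vol u := by
    obtain ⟨r, hr, hball⟩ := Metric.isOpen_iff.mp isOpen_interior 0 (zero_mem_interior K)
    let w : Fin d → E d := fun i => EuclideanSpace.single i (r / 2)
    have hw : w ∈ Set.pi univ (fun _ : Fin d => B) := by
      intro i _
      apply interior_subset
      apply hball
      rw [mem_ball_zero_iff]
      simp only [w, PiLp.norm_single, Real.norm_eq_abs]
      rw [abs_of_pos (by positivity)]
      linarith
    have h1 : vol w ≤ vol u := hmax hw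
    have h2 : vol w = (r / 2) ^ d := by
      unfold vol
      have : (Matrix.of fun i j => (w i) j) = Matrix.diagonal (fun _ : Fin d => r / 2) := by
        ext i j
        by_cases h : i = j
        · subst h; simp [w]
        · simp [w, h, Ne.symm h]
      rw [this, Matrix.det_diagonal, Finset.prod_const, Finset.card_univ, Fintype.card_fin]
    have : 0 < (r / 2) ^ d := by positivity
    linarith
  let F : Fin d → (E d →ₗ[ℝ] ℝ) := fun i =>
    { toFun := fun x => vol (Function.update u i x) / vol u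
      map_add' := fun a b => by rw [vol_update_add, add_div]
      map_smul' := fun c a => by
        rw [vol_update_smul]
        simp [mul_div_assoc] }
  refine ⟨u, fun i => LinearMap.toContinuousLinearMap (F i), hu', ?_, ?_, ?_⟩
  · intro i x hx
    show vol (Function.update u i x) / vol u ≤ 1
    rw [div_le_one hpos]
    apply hmax
    intro k _
    by_cases hk : k = i
    · subst hk; simpa using hx
    · simpa [hk] using hu' k
  · intro i
    show vol (Function.update u i (u i)) / vol u = 1
    rw [Function.update_eq_self]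
    exact div_self hpos.ne'
  · intro i j hij
    show vol (Function.update u i (u j)) / vol u = 0
    have : vol (Function.update u i (u j)) = 0 := by
      unfold vol
      apply Matrix.det_zero_of_row_eq hij
      ext k
      simp [Ne.symm hij]
    rw [this, zero_div]

/-- The separable Hadwiger number is at least `2 d` for every body. -/
lemma le_Hsep {d : ℕ} (K : SymBody d) : 2 * (d : ℕ∞) ≤ Hsep (K.1 : Set (E d)) := by
  classical
  obtain ⟨u, F, hu, h1, h2, h3⟩ := auerbach K
  have hsym : ∀ x ∈ (K.1 : Set (E d)), -x ∈ (K.1 : Set (E d)) := K.2.2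
  let y : Fin d ⊕ Fin d → E d := Sum.elim u (fun i => -(u i))
  let f : Fin d ⊕ Fin d → (E d →L[ℝ] ℝ) := Sum.elim F (fun i => -(F i))
  obtain ⟨V, hVc, hV⟩ := config_of_nonpos (K := (K.1 : Set (E d))) hsym y f
    (by
      rintro (i | i)
      · exact hu i
      · exact hsym _ (hu i))
    (by
      rintro (i | i) x hx
      · show F i x ≤ F i (u i)
        rw [h2]; exact h1 i x hx
      · show (-(F i)) x ≤ (-(F i)) (-(u i))
        have := h1 i _ (hsym x hx)
        simp only [neg_apply, map_neg, neg_neg, h2] at this ⊢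
        linarith)
    (by
      rintro (i | i)
      · show 0 < F i (u i)
        rw [h2]; norm_num
      · show 0 < (-(F i)) (-(u i))
        simp [h2])
    (by
      rintro (i | i) (j | j) hij
      · show F i (u j) ≤ 0
        rw [h3 i j (fun h => hij (by rw [h]))]
      · show F i (-(u j)) ≤ 0
        by_cases h : i = j
        · subst h; rw [map_neg, h2]; norm_num
        · rw [map_neg, h3 i j h]; norm_num
      · show (-(F i)) (u j) ≤ 0
        by_cases h : i = j
        · subst h; rw [neg_apply, h2]; norm_num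
        · rw [neg_apply, h3 i j h]; norm_num
      · show (-(F i)) (-(u j)) ≤ 0
        rw [neg_apply, map_neg, neg_neg, h3 i j (fun h => hij (by rw [h]))])
  have hcard : (V.card : ℕ∞) = 2 * (d : ℕ∞) := by
    rw [hVc]
    simp
    ring
  rw [← hcard]
  exact le_iSup₂ (f := fun (V : Finset (E d)) (_ : IsSepHadwigerConfig (K.1 : Set (E d)) V) =>
    (V.card : ℕ∞)) V hV

open Pointwise in
/-- The body thickened by a ball of radius `r`. -/
noncomputable def thick {d : ℕ} (K : SymBody d) (r : ℝ) (hr : 0 < r) : SymBody d :=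
  ⟨{ carrier := (K.1 : Set (E d)) + Metric.closedBall 0 r
     convex' := K.1.convex.add (convex_closedBall 0 r)
     isCompact' := K.1.isCompact.add (isCompact_closedBall 0 r)
     nonempty' := K.1.nonempty.add ⟨0, Metric.mem_closedBall_self hr.le⟩ }, by
    constructor
    · obtain ⟨x, hx⟩ := K.1.nonempty
      refine ⟨x, interior_maximal (t := Metric.ball x r) ?_ Metric.isOpen_ball
        (Metric.mem_ball_self hr)⟩
      intro z hz
      refine ⟨x, hx, z - x, ?_, by simp⟩
      rw [mem_closedBall_zero_iff, ← dist_eq_norm]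
      exact (Metric.mem_ball.mp hz).le
    · rintro _ ⟨p, hp, u, hu, rfl⟩
      refine ⟨-p, K.2.2 p hp, -u, ?_, ?_⟩
      · rw [mem_closedBall_zero_iff] at hu ⊢
        rwa [norm_neg]
      · simp only [neg_add]⟩

lemma mem_thick {d : ℕ} {K : SymBody d} {r : ℝ} {hr : 0 < r} {z : E d} :
    z ∈ ((thick K r hr).1 : Set (E d)) ↔ ∃ p ∈ (K.1 : Set (E d)), ∃ u : E d, ‖u‖ ≤ r ∧ p + u = z := by
  constructor
  · rintro ⟨p, hp, u, hu, rfl⟩
    exact ⟨p, hp, u, by simpa using hu, rfl⟩
  · rintro ⟨p, hp, u, hu, rfl⟩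
    exact ⟨p, hp, u, by simpa using hu, rfl⟩

lemma dist_thick {d : ℕ} (K : SymBody d) (r : ℝ) (hr : 0 < r) : dist (thick K r hr) K ≤ r := by
  show Metric.hausdorffDist ((thick K r hr).1 : Set (E d)) (K.1 : Set (E d)) ≤ r
  apply Metric.hausdorffDist_le_of_mem_dist hr.le
  · intro z hz
    obtain ⟨p, hp, u, hu, rfl⟩ := mem_thick.mp hz
    refine ⟨p, hp, ?_⟩
    rw [dist_eq_norm]
    simpa using hu
  · intro p hp
    refine ⟨p, mem_thick.mpr ⟨p, hp, 0, by simpa using hr.le, by simp⟩, ?_⟩
    simpa using hr.le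

/-- A functional supporting a ball is determined by the point of contact. -/
lemma inner_of_support {d : ℕ} {r : ℝ} (hr : 0 < r) (u : E d) (hu : ‖u‖ ≤ r)
    (f : E d →L[ℝ] ℝ) (hf : ∀ v : E d, ‖v‖ ≤ r → f v ≤ f u) :
    ∃ c : ℝ, 0 ≤ c ∧ ∀ z, f z = c * inner ℝ u z := by
  let a : E d := (InnerProductSpace.toDual ℝ (E d)).symm f
  have ha : ∀ z, f z = inner ℝ a z := by
    intro z
    simp [a]
  refine ⟨‖a‖ / r, by positivity, ?_⟩
  have h1 : r * ‖a‖ ≤ inner ℝ a u := by
    rcases eq_or_ne a 0 with h0 | h0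
    · rw [h0]; simp
    have hna : 0 < ‖a‖ := norm_pos_iff.mpr h0
    have := hf ((r / ‖a‖) • a) (by
      rw [norm_smul, Real.norm_eq_abs, abs_of_pos (by positivity), div_mul_cancel₀ _ hna.ne'])
    rw [ha, ha, inner_smul_right, real_inner_self_eq_norm_sq] at this
    have e : r / ‖a‖ * ‖a‖ ^ 2 = r * ‖a‖ := by field_simp
    rwa [e] at this
  have h2 : a = (‖a‖ / r) • u := by
    have h3 : ‖a - (‖a‖ / r) • u‖ ^ 2 ≤ 0 := by
      rw [norm_sub_sq_real, inner_smul_right, norm_smul, Real.norm_eq_abs,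
        abs_of_nonneg (by positivity)]
      have h4 : ‖a‖ / r * (r * ‖a‖) ≤ ‖a‖ / r * inner ℝ a u := by gcongr
      have h5 : ‖a‖ / r * (r * ‖a‖) = ‖a‖ ^ 2 := by field_simp
      have h6 : (‖a‖ / r * ‖u‖) ^ 2 ≤ (‖a‖ / r * r) ^ 2 := by gcongr
      have h7 : (‖a‖ / r * r) ^ 2 = ‖a‖ ^ 2 := by field_simp
      linarith
    have h4 : ‖a - (‖a‖ / r) • u‖ = 0 := by
      have := norm_nonneg (a - (‖a‖ / r) • u)
      nlinarith
    exact sub_eq_zero.mp (norm_eq_zero.mp h4)
  intro z
  rw [ha]
  conv_lhs => rw [h2]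
  rw [inner_smul_left]
  simp

lemma thick_smooth {d : ℕ} (K : SymBody d) (r : ℝ) (hr : 0 < r) :
    IsSmooth ((thick K r hr).1 : Set (E d)) := by
  intro x hx f g hf1 hf2 hg1 hg2
  obtain ⟨p, hp, u, hu, rfl⟩ := mem_thick.mp hx
  have key : ∀ h : E d →L[ℝ] ℝ, h (p + u) = 1 →
      (∀ z ∈ ((thick K r hr).1 : Set (E d)), h z ≤ 1) →
      ∃ c : ℝ, 0 ≤ c ∧ ∀ z, h z = c * inner ℝ u z := by
    intro h h1 h2
    apply inner_of_support hr u hu
    intro v hv
    have h3 := h2 (p + v) (mem_thick.mpr ⟨p, hp, v, hv, rfl⟩)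
    rw [map_add] at h1 h3
    linarith
  obtain ⟨a, _, ha⟩ := key f hf1 hf2
  obtain ⟨b, _, hb⟩ := key g hg1 hg2
  have h1 := ha (p + u)
  have h2 := hb (p + u)
  rw [hf1] at h1
  rw [hg1] at h2
  have hne : inner ℝ u (p + u) ≠ 0 := by
    intro h
    rw [h] at h1
    simp at h1
  have hab : a = b := by
    apply mul_right_cancel₀ hne
    rw [← h1, ← h2]
  ext z
  rw [ha, hb, hab]

/-- Upper bound for smooth bodies in dimension at most five. -/
lemma Hsep_smooth {d : ℕ} (hd : d ≤ 5) (K : SymBody d) (hK : IsSmooth (K.1 : Set (E d))) :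
    Hsep (K.1 : Set (E d)) = 2 * (d : ℕ∞) := by
  apply le_antisymm _ (le_Hsep K)
  apply iSup₂_le
  intro V hV
  obtain ⟨f, h1, h2⟩ := pairing_of_config K hK V hV
  have := card_le hd (fun w : V => (1 / 2 : ℝ) • (w : E d)) f h1 h2
  rw [Fintype.card_coe] at this
  exact_mod_cast this

/-- In dimension at most five the bodies with `Hsep = 2 d` are dense. -/
lemma dense_five {d : ℕ} (hd : d ≤ 5) :
    Dense {K : SymBody d | Hsep (K.1 : Set (E d)) = 2 * (d : ℕ∞)} := by
  rw [Metric.dense_iff]
  intro K r hr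
  refine ⟨thick K (r / 2) (by positivity), ?_, Hsep_smooth hd _ (thick_smooth K _ _)⟩
  rw [Metric.mem_ball]
  have := dist_thick K (r / 2) (by positivity)
  linarith

/-- the polytope spanned by the vectors and their negatives -/
def poly {d m : ℕ} (x : Fin m → E d) : Set (E d) :=
  convexHull ℝ (range x ∪ range (fun i => -x i))

lemma neg_mem_poly {d m : ℕ} (x : Fin m → E d) {p : E d} (hp : p ∈ poly x) : -p ∈ poly x := by
  have h : -(range x ∪ range (fun i => -x i)) = range x ∪ range (fun i => -x i) := by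
    ext z
    simp only [Set.mem_neg, mem_union, mem_range]
    constructor
    · rintro (⟨i, hi⟩ | ⟨i, hi⟩)
      · exact Or.inr ⟨i, by rw [hi, neg_neg]⟩
      · exact Or.inl ⟨i, neg_injective hi⟩
    · rintro (⟨i, hi⟩ | ⟨i, hi⟩)
      · exact Or.inr ⟨i, by rw [hi]⟩
      · exact Or.inl ⟨i, by rw [← hi, neg_neg]⟩
  unfold poly at hp ⊢
  rw [← h, convexHull_neg, Set.mem_neg, neg_neg]
  exact hp

open Pointwise in
/-- the reference body: the polytope thickened by a ball -/
noncomputable def body {d m : ℕ} (x : Fin m → E d) (i₀ : Fin m) (r : ℝ) (hr : 0 < r) :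
    SymBody d :=
  ⟨{ carrier := poly x + Metric.closedBall 0 r
     convex' := (convex_convexHull ℝ _).add (convex_closedBall 0 r)
     isCompact' := (((finite_range x).union (finite_range _)).isCompact_convexHull ℝ).add
       (isCompact_closedBall 0 r)
     nonempty' := ⟨x i₀ + 0, add_mem_add
       (subset_convexHull ℝ _ (Or.inl ⟨i₀, rfl⟩)) (Metric.mem_closedBall_self hr.le)⟩ }, by
    constructor
    · refine ⟨x i₀, interior_maximal (t := Metric.ball (x i₀) r) ?_ Metric.isOpen_ball
        (Metric.mem_ball_self hr)⟩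
      intro z hz
      refine ⟨x i₀, subset_convexHull ℝ _ (Or.inl ⟨i₀, rfl⟩), z - x i₀, ?_, by simp⟩
      rw [mem_closedBall_zero_iff, ← dist_eq_norm]
      exact (Metric.mem_ball.mp hz).le
    · rintro _ ⟨p, hp, u, hu, rfl⟩
      refine ⟨-p, neg_mem_poly x hp, -u, ?_, ?_⟩
      · rw [mem_closedBall_zero_iff] at hu ⊢
        rwa [norm_neg]
      · simp only [neg_add]⟩

open Pointwise in
lemma mem_body {d m : ℕ} {x : Fin m → E d} {i₀ : Fin m} {r : ℝ} {hr : 0 < r} {z : E d}
    (hz : z ∈ (body x i₀ r hr).1) : ∃ p ∈ poly x, ‖z - p‖ ≤ r := by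
  obtain ⟨p, hp, u, hu, rfl⟩ := hz
  refine ⟨p, hp, ?_⟩
  rw [mem_closedBall_zero_iff] at hu
  simpa using hu

open Pointwise in
lemma vertex_mem_body {d m : ℕ} (x : Fin m → E d) (i₀ : Fin m) (r : ℝ) (hr : 0 < r) (i : Fin m) :
    x i ∈ (body x i₀ r hr).1 :=
  ⟨x i, subset_convexHull ℝ _ (Or.inl ⟨i, rfl⟩), 0, Metric.mem_closedBall_self hr.le, by simp⟩

/-- all bodies near the reference body have a configuration of size `m` -/
lemma robust {d m : ℕ} (i₀ : Fin m) (x : Fin m → E d) (f : Fin m → (E d →L[ℝ] ℝ))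
    (hd : ∀ i, f i (x i) = 1) (ho : ∀ i j, i ≠ j → -1 < f i (x j) ∧ f i (x j) < 0) :
    ∃ K₀ : SymBody d, ∃ ε : ℝ, 0 < ε ∧ ∀ K : SymBody d, dist K K₀ < ε →
      ∃ V : Finset (E d), V.card = m ∧ IsSepHadwigerConfig (K.1 : Set (E d)) V := by
  classical
  obtain ⟨δ, hδ, hδ'⟩ := exists_pos_lb
    (fun p : Fin m × Fin m => if p.1 = p.2 then (1 : ℝ) else
      min (-(f p.1 (x p.2))) (1 + f p.1 (x p.2))) (by
      rintro ⟨i, j⟩
      by_cases h : i = j
      · simp [h]
      · simp only [h, if_false]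
        have := ho i j h
        exact lt_min (by linarith) (by linarith))
  have hδ1 : δ ≤ 1 := by
    have := hδ' (i₀, i₀)
    simpa using this
  have hub : ∀ i j, i ≠ j → f i (x j) ≤ -δ := by
    intro i j h
    have := hδ' (i, j)
    simp only [h, if_false] at this
    have := this.trans (min_le_left _ _)
    linarith
  have hlb : ∀ i j, i ≠ j → -1 + δ ≤ f i (x j) := by
    intro i j h
    have := hδ' (i, j)
    simp only [h, if_false] at this
    have := this.trans (min_le_right _ _)
    linarith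
  have habs : ∀ i j, -1 ≤ f i (x j) ∧ f i (x j) ≤ 1 := by
    intro i j
    by_cases h : i = j
    · subst h; rw [hd]; norm_num
    · have h1 := hub i j h
      have h2 := hlb i j h
      constructor <;> linarith
  let M : ℝ := 2 / δ + 1
  have hM1 : 1 ≤ M := by
    have : 0 < 2 / δ := by positivity
    show 1 ≤ 2 / δ + 1
    linarith
  have hMδ : 2 ≤ M * δ := by
    show 2 ≤ (2 / δ + 1) * δ
    rw [add_mul, div_mul_cancel₀ _ hδ.ne']
    linarith
  let S : ℝ := ∑ i, ‖f i‖
  have hS0 : 0 ≤ S := Finset.sum_nonneg (fun i _ => norm_nonneg _)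
  have hSi : ∀ i, ‖f i‖ ≤ S := fun i =>
    Finset.single_le_sum (f := fun i => ‖f i‖) (fun j _ => norm_nonneg _) (Finset.mem_univ i)
  let L : ℝ := (1 + M) * (1 + S)
  have hL : 0 < L := by positivity
  have hfi : ∀ i u, |f i u| ≤ S * ‖u‖ := by
    intro i u
    have := (f i).le_opNorm u
    rw [Real.norm_eq_abs] at this
    exact this.trans (by gcongr; exact hSi i)
  have hfL : ∀ i j u, f j u + M * f i u ≤ L * ‖u‖ := by
    intro i j u
    have h1 := (le_abs_self _).trans (hfi j u)
    have h2 := (le_abs_self _).trans (hfi i u)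
    have h3 : M * f i u ≤ M * (S * ‖u‖) := by gcongr
    have h4 : 0 ≤ (1 + M) * ‖u‖ := by positivity
    have h5 : L * ‖u‖ = (S * ‖u‖ + M * (S * ‖u‖)) + (1 + M) * ‖u‖ := by
      show (1 + M) * (1 + S) * ‖u‖ = _
      ring
    linarith
  have hML : ∀ i u, M * f i u ≤ L * ‖u‖ := by
    intro i u
    have h2 := (le_abs_self _).trans (hfi i u)
    have h3 : M * f i u ≤ M * (S * ‖u‖) := by gcongr
    have h4 : 0 ≤ (1 + M) * ‖u‖ := by positivity
    have h6 : 0 ≤ S * ‖u‖ := by positivity
    have h5 : L * ‖u‖ = (S * ‖u‖ + M * (S * ‖u‖)) + (1 + M) * ‖u‖ := by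
      show (1 + M) * (1 + S) * ‖u‖ = _
      ring
    linarith
  let r : ℝ := δ / (4 * L)
  have hr : 0 < r := by positivity
  have hLr : L * r = δ / 4 := by
    show L * (δ / (4 * L)) = δ / 4
    field_simp
  -- the key inequality on the polytope
  have hpoly : ∀ i j, i ≠ j → ∀ p ∈ poly x, f j p + M * f i p ≤ f j (x i) + M := by
    intro i j hij
    have hconv : Convex ℝ {p : E d | f j p + M * f i p ≤ f j (x i) + M} := by
      have : {p : E d | f j p + M * f i p ≤ f j (x i) + M} =
          {p : E d | (f j + M • f i) p ≤ f j (x i) + M} := by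
        ext p; simp
      rw [this]
      exact convex_halfSpace_le (f j + M • f i).toLinearMap.isLinear _
    apply convexHull_min _ hconv
    rintro z (⟨k, rfl⟩ | ⟨k, rfl⟩)
    · show f j (x k) + M * f i (x k) ≤ f j (x i) + M
      by_cases hk : i = k
      · subst hk; rw [hd i]; linarith
      · have h1 := hub i k hk
        have h2 := (habs j k).2
        have h3 := (habs j i).1
        have h4 : M * f i (x k) ≤ M * (-δ) := by gcongr
        nlinarith
    · show f j (-x k) + M * f i (-x k) ≤ f j (x i) + M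
      rw [map_neg, map_neg]
      by_cases hk : i = k
      · subst hk; rw [hd i]
        have h3 := (habs j i).1
        nlinarith
      · have h1 := hlb i k hk
        have h2 := (habs j k).1
        have h3 := (habs j i).1
        have h4 : M * (-(f i (x k))) ≤ M * (1 - δ) := by gcongr; linarith
        nlinarith
  refine ⟨body x i₀ r hr, r, hr, ?_⟩
  intro K hK
  have hne : Metric.hausdorffEDist (K.1 : Set (E d)) ((body x i₀ r hr).1 : Set (E d)) ≠ ⊤ :=
    ConvexBody.hausdorffEDist_ne_top
  have hKd : Metric.hausdorffDist (K.1 : Set (E d)) ((body x i₀ r hr).1 : Set (E d)) < r := hK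
  have hKne : (K.1 : Set (E d)).Nonempty := K.1.nonempty
  choose y hyK hymax using fun i =>
    K.1.isCompact.exists_isMaxOn hKne (f i).continuous.continuousOn
  have hmax : ∀ i, ∀ z ∈ (K.1 : Set (E d)), f i z ≤ f i (y i) := fun i z hz => hymax i hz
  have hlow : ∀ i, M - δ / 4 ≤ M * f i (y i) := by
    intro i
    obtain ⟨z, hz, hz'⟩ := Metric.exists_dist_lt_of_hausdorffDist_lt'
      (vertex_mem_body x i₀ r hr i) hKd hne
    have h1 := hmax i z hz
    have h2 := hML i (x i - z)
    rw [map_sub, hd] at h2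
    have h3 : ‖x i - z‖ ≤ r := by
      rw [← dist_eq_norm, dist_comm]; exact hz'.le
    have h4 : L * ‖x i - z‖ ≤ L * r := by gcongr
    have h5 : M * f i z ≤ M * f i (y i) := by gcongr
    nlinarith
  have hfin : ∀ V : Finset (E d), V.card = Fintype.card (Fin m) → V.card = m := by
    intro V hV; simpa using hV
  have hcfg := config_of_nonpos (ι := Fin m) K.2.2 y f hyK hmax ?_ ?_
  · obtain ⟨V, hV, hV'⟩ := hcfg
    exact ⟨V, hfin V hV, hV'⟩
  · intro i
    have := hlow i
    have h1 : 0 < M * f i (y i) := by linarith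
    have h2 : 0 < M := by linarith
    exact (mul_pos_iff_of_pos_left h2).mp h1
  · intro i j hij
    -- `f i (y j) < 0`
    obtain ⟨z, hz, hz'⟩ := Metric.exists_dist_lt_of_hausdorffDist_lt (hyK j) hKd hne
    obtain ⟨p, hp, hpz⟩ := mem_body hz
    have h1 := hpoly j i hij.symm p hp
    have h2 := hfL j i (y j - p)
    have h3 : ‖y j - p‖ ≤ 2 * r := by
      have : y j - p = (y j - z) + (z - p) := by abel
      rw [this]
      refine (norm_add_le _ _).trans ?_
      rw [← dist_eq_norm]
      linarith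
    have h4 : L * ‖y j - p‖ ≤ L * (2 * r) := by gcongr
    have h5 := hlow j
    have h6 := hub i j hij
    rw [map_sub, map_sub] at h2
    apply le_of_lt
    nlinarith

lemma SC_robust {d m : ℕ} (hm : 0 < m) (h : SC d m) :
    ∃ K₀ : SymBody d, ∃ ε : ℝ, 0 < ε ∧ ∀ K : SymBody d, dist K K₀ < ε →
      (m : ℕ∞) ≤ Hsep (K.1 : Set (E d)) := by
  obtain ⟨x, f, b, hd, ho, _⟩ := h
  let f' : Fin m → (E d →L[ℝ] ℝ) := fun i => ∑ k, f i k • EuclideanSpace.proj k
  have hf' : ∀ i (z : E d), f' i z = ∑ k, f i k * z k := by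
    intro i z
    simp [f']
  obtain ⟨K₀, ε, hε, H⟩ := robust (⟨0, hm⟩ : Fin m) (fun i => WithLp.toLp 2 (x i)) f'
    (by intro i; rw [hf']; exact hd i) (by intro i j hij; rw [hf']; exact ho i j hij)
  refine ⟨K₀, ε, hε, fun K hK => ?_⟩
  obtain ⟨V, hV, hc⟩ := H K hK
  rw [← hV]
  exact le_iSup₂ (f := fun (V : Finset (E d)) (_ : IsSepHadwigerConfig (K.1 : Set (E d)) V) =>
    (V.card : ℕ∞)) V hc


/-- For every `d ≥ 7` the bodies with `Hsep = 2 d` are not dense. -/
lemma not_dense_seven (d : ℕ) (hd : 7 ≤ d) :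
    ¬ Dense {K : SymBody d | Hsep (K.1 : Set (E d)) = 2 * (d : ℕ∞)} := by
  obtain ⟨m, hm, hs⟩ := exists_SC d hd
  obtain ⟨K₀, ε, hε, H⟩ := SC_robust (by omega) hs
  have hlt : ∀ K : SymBody d, dist K K₀ < ε → 2 * (d : ℕ∞) < Hsep (K.1 : Set (E d)) := by
    intro K hK
    refine lt_of_lt_of_le ?_ (H K hK)
    exact_mod_cast hm
  intro hdense
  obtain ⟨K, hK, hKd⟩ := hdense.exists_dist_lt K₀ hε
  rw [dist_comm] at hKd
  exact absurd hK (hlt K hKd).ne'


end Pool.Agent.H513.SepHadwiger
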